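import Pool.Agent.Helper15.KL.Ind

/-!
# The final estimate
-/

set_option linter.unusedSectionVars false
set_option linter.unusedVariables false

namespace Pool.Agent.Helper15.KL

open Finset Filter Topology Pool.Agent.N35.HL Pool.Agent.W863.AllK KLev

lemma log_bounds3 {m l : ℕ} {x : ℝ} (h1 : 2 ^ l ≤ m) (h2 : m < 2 ^ (l + 1)) (hl : 10 ≤ l)
    (hx1 : (m:ℝ) ≤ x) (hx2 : x ≤ 8 * m) :
    Real.log x / (Real.log (Real.log x)) ^ 3 ≤ 8 * (l / (Real.log l) ^ 3) := by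
  have hl0 : (10:ℝ) ≤ l := by exact_mod_cast hl
  have e1 : (2:ℝ) ^ l ≤ m := by exact_mod_cast h1
  have e2 : (m:ℝ) ≤ 2 ^ (l + 1) := by exact_mod_cast h2.le
  have hp : (0:ℝ) < 2 ^ l := by positivity
  have hx : 0 < x := by linarith
  have l2a := Real.log_two_gt_d9
  have l2b := Real.log_two_lt_d9
  have h3 : Real.log x ≤ l := by
    have h4 : x ≤ 2 ^ (l + 4) := by
      have : (2:ℝ) ^ (l + 4) = 8 * 2 ^ (l + 1) := by ring
      linarith
    have h5 := Real.log_le_log hx h4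
    rw [Real.log_pow] at h5
    push_cast at h5
    nlinarith
  have h4 : 0.69 * (l:ℝ) ≤ Real.log x := by
    have h5 := Real.log_le_log hp (e1.trans hx1)
    rw [Real.log_pow] at h5
    nlinarith
  have h5 : √(l:ℝ) ≤ Real.log x := by
    refine le_trans ?_ h4
    rw [Real.sqrt_le_left (by positivity)]
    nlinarith
  have h6 : Real.log l / 2 ≤ Real.log (Real.log x) := by
    rw [← Real.log_sqrt (by positivity)]
    exact Real.log_le_log (Real.sqrt_pos.mpr (by linarith)) h5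
  have h7 : 0 < Real.log l := Real.log_pos (by linarith)
  have h8 : 0 < (Real.log l / 2) ^ 3 := by positivity
  calc Real.log x / (Real.log (Real.log x)) ^ 3 ≤ l / (Real.log l / 2) ^ 3 :=
        div_le_div₀ (by positivity) h3 h8 (pow_le_pow_left₀ (by positivity) h6 3)
    _ = 8 * (l / (Real.log l) ^ 3) := by
        field_simp
        ring

/-- `l / (log l) ^ 3` tends to infinity -/
lemma big3 (c : ℝ) : ∀ᶠ l : ℕ in atTop, c ≤ l / (Real.log l) ^ 3 := by
  have h1 := (Real.isLittleO_pow_log_id_atTop (n := 3)).bound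
    (c := 1 / (|c| + 1)) (by positivity)
  have h2 := tendsto_natCast_atTop_atTop (R := ℝ) |>.eventually h1
  filter_upwards [h2, eventually_ge_atTop 2] with l hl hl2
  have hl0 : (2:ℝ) ≤ l := by exact_mod_cast hl2
  have h7 : 0 < Real.log l := Real.log_pos (by linarith)
  simp only [id, Real.norm_eq_abs] at hl
  rw [abs_of_nonneg (by positivity), abs_of_nonneg (by positivity : (0:ℝ) ≤ l)] at hl
  rw [le_div_iff₀ (by positivity)]
  have h8 : 0 < |c| + 1 := by positivity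
  have h9 : (|c| + 1) * Real.log l ^ 3 ≤ l := by
    calc (|c| + 1) * Real.log l ^ 3 ≤ (|c| + 1) * (1 / (|c| + 1) * l) :=
          mul_le_mul_of_nonneg_left hl h8.le
      _ = l := by field_simp
  have h10 : c * Real.log l ^ 3 ≤ (|c| + 1) * Real.log l ^ 3 :=
    mul_le_mul_of_nonneg_right (by linarith [le_abs_self c]) (by positivity)
  linarith

/-- choice of the block -/
lemma choose_a {K l : ℕ} (hK : 1 ≤ K) (hl : 64 * K ≤ l) :
    ∃ a, K * 2 ^ a * (a + 4) ^ 3 ≤ l ∧ l ≤ K * 2 ^ (a + 1) * (a + 5) ^ 3 := by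
  have h0 : K * 2 ^ 0 * (0 + 4) ^ 3 ≤ l := by norm_num; omega
  refine ⟨Nat.findGreatest (fun a => K * 2 ^ a * (a + 4) ^ 3 ≤ l) l,
    Nat.findGreatest_spec (P := fun a => K * 2 ^ a * (a + 4) ^ 3 ≤ l) (Nat.zero_le l) h0, ?_⟩
  obtain ⟨a, ha⟩ : ∃ a, a = Nat.findGreatest (fun a => K * 2 ^ a * (a + 4) ^ 3 ≤ l) l := ⟨_, rfl⟩
  rw [← ha]
  by_contra hcon
  push Not at hcon
  have h1 : a + 1 ≤ l := by
    calc a + 1 ≤ 2 ^ (a + 1) := Nat.lt_two_pow_self.le
      _ = 1 * 2 ^ (a + 1) * 1 := by ring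
      _ ≤ K * 2 ^ (a + 1) * (a + 5) ^ 3 :=
        Nat.mul_le_mul (Nat.mul_le_mul_right _ hK) (Nat.one_le_pow _ _ (by omega))
      _ ≤ l := hcon.le
  have h2 : (fun a => K * 2 ^ a * (a + 4) ^ 3 ≤ l) (a + 1) := by
    change K * 2 ^ (a + 1) * (a + 1 + 4) ^ 3 ≤ l
    have : a + 1 + 4 = a + 5 := by ring
    rw [this]
    exact hcon.le
  exact Nat.findGreatest_is_greatest (P := fun a => K * 2 ^ a * (a + 4) ^ 3 ≤ l)
    (by rw [← ha]; exact Nat.lt_succ_self _) h1 h2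

theorem finalE3 : ∃ c₁ : ℝ, 0 < c₁ ∧ ∀ C : ℝ, ∀ᶠ m : ℕ in atTop, ∃ N E P, KLev.Has N E P ∧
    N ≤ m ∧ ∀ x : ℝ, (m:ℝ) ≤ x → x ≤ 8 * m →
      C * m * Real.exp (c₁ * (Real.log x / (Real.log (Real.log x)) ^ 3)) ≤ E := by
  obtain ⟨A, B, c, hc, hfam⟩ := family
  set K : ℕ := 20 + 2 * A + B with hK
  have hK1 : 1 ≤ K := by omega
  have hK0 : (1:ℝ) ≤ K := by exact_mod_cast hK1
  have hc0 : 0 < c := by linarith
  refine ⟨c / (2048 * K), by positivity, ?_⟩
  intro C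
  have hlog : Tendsto (fun m : ℕ => Nat.log 2 m) atTop atTop := by
    rw [tendsto_atTop]
    intro b
    filter_upwards [eventually_ge_atTop (2 ^ b)] with m hm
    exact Nat.le_log_of_pow_le (by norm_num) hm
  have hev := hlog.eventually ((big3 (256 * K / c * Real.log (10506 / 2500 * (|C| + 1)))).and
    (eventually_ge_atTop (64 * K + 10)))
  filter_upwards [hev, eventually_ge_atTop 1] with m hm hm1
  obtain ⟨hbig, hl⟩ := hm
  set l := Nat.log 2 m with hldef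
  have hlm : 2 ^ l ≤ m := Nat.pow_log_le_self 2 (by omega)
  have hlm2 : m < 2 ^ (l + 1) := Nat.lt_pow_succ_log_self (by norm_num) m
  obtain ⟨a, ha1, ha2⟩ := choose_a (l := l) hK1 (by omega)
  obtain ⟨N, E, P, h2, h3, h4⟩ := (hfam a).fill (Real.exp_nonneg _) 0 m (by
    refine le_trans (Nat.pow_le_pow_right (by norm_num) (le_trans ?_ ha1)) hlm
    unfold Tf Rf Bf
    have e1 : 1 ≤ 2 ^ a * (a + 4) ^ 3 := Nat.mul_pos (by positivity) (by positivity)
    have e2 : A * 2 ^ a * (a + 4) ^ 2 ≤ A * 2 ^ a * (a + 4) ^ 3 :=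
      Nat.mul_le_mul_left _ (Nat.pow_le_pow_right (by omega) (by norm_num))
    have e3 : B * 2 ^ a * 1 ≤ B * 2 ^ a * (a + 4) ^ 3 :=
      Nat.mul_le_mul_left _ (Nat.one_le_pow _ _ (by omega))
    have e4 : K * 2 ^ a * (a + 4) ^ 3 = 20 * (2 ^ a * (a + 4) ^ 3) +
      2 * (A * 2 ^ a * (a + 4) ^ 3) + B * 2 ^ a * (a + 4) ^ 3 := by rw [hK]; ring
    rw [e4]
    simp only [zero_add, one_mul, one_pow, mul_one]
    omega)
  refine ⟨N, E, P, h2, h3, ?_⟩
  intro x hx1 hx2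
  have hx3 := log_bounds3 hlm hlm2 (by omega) hx1 hx2
  set y : ℝ := l / (Real.log l) ^ 3 with hy
  have hl0 : (74:ℝ) ≤ l := by exact_mod_cast (by omega : 74 ≤ l)
  have hL : 2 ≤ Real.log l := by
    have h5 : Real.exp 2 ≤ l := by
      have h6 : Real.exp 2 = Real.exp 1 * Real.exp 1 := by rw [← Real.exp_add]; norm_num
      have h7 := Real.exp_one_lt_d9
      have h8 := Real.exp_pos 1
      nlinarith
    rw [Real.le_log_iff_exp_le (by linarith)]
    exact h5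
  have hm0 : (0:ℝ) ≤ m := Nat.cast_nonneg _
  have ha0 : (0:ℝ) ≤ a := Nat.cast_nonneg _
  -- the size of the block
  have h5 : y ≤ 128 * K * 2 ^ a := by
    have e1 : (l:ℝ) ≤ K * 2 ^ (a + 1) * ((a:ℝ) + 5) ^ 3 := by exact_mod_cast ha2
    have e2 : (a:ℝ) + 5 ≤ 4 * Real.log l := by
      have e3 : 2 ^ a ≤ l := by
        calc 2 ^ a = 1 * 2 ^ a * 1 := by ring
          _ ≤ K * 2 ^ a * (a + 4) ^ 3 :=
            Nat.mul_le_mul (Nat.mul_le_mul_right _ hK1) (Nat.one_le_pow _ _ (by omega))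
          _ ≤ l := ha1
      have e4 : (2:ℝ) ^ a ≤ l := by exact_mod_cast e3
      have e5 := Real.log_le_log (by positivity) e4
      rw [Real.log_pow] at e5
      have l2a := Real.log_two_gt_d9
      nlinarith
    have e3 : ((a:ℝ) + 5) ^ 3 ≤ (4 * Real.log l) ^ 3 := pow_le_pow_left₀ (by positivity) e2 3
    rw [hy, div_le_iff₀ (by positivity)]
    calc (l:ℝ) ≤ K * 2 ^ (a + 1) * ((a:ℝ) + 5) ^ 3 := e1
      _ ≤ K * 2 ^ (a + 1) * (4 * Real.log l) ^ 3 :=
        mul_le_mul_of_nonneg_left e3 (by positivity)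
      _ = 128 * K * 2 ^ a * Real.log l ^ 3 := by ring
  have h6 : Real.exp (c / (128 * K) * y) ≤
      Real.exp (c * 2 ^ a * (1 + 1 / ((a:ℝ) + 4))) ^ (0 + 1) := by
    rw [zero_add, pow_one]
    apply Real.exp_le_exp.mpr
    calc c / (128 * K) * y ≤ c / (128 * K) * (128 * K * 2 ^ a) :=
          mul_le_mul_of_nonneg_left h5 (by positivity)
      _ = c * 2 ^ a := by field_simp
      _ ≤ c * 2 ^ a * (1 + 1 / ((a:ℝ) + 4)) := by
          have : 0 ≤ c * 2 ^ a * (1 / ((a:ℝ) + 4)) := by positivity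
          linarith
  have h7 : |C| + 1 ≤ 2500 / 10506 * Real.exp (c / (256 * K) * y) := by
    have e1 : (0:ℝ) < 10506 / 2500 * (|C| + 1) := by positivity
    have e2 : Real.log (10506 / 2500 * (|C| + 1)) ≤ c / (256 * K) * y := by
      calc Real.log (10506 / 2500 * (|C| + 1)) =
            c / (256 * K) * (256 * K / c * Real.log (10506 / 2500 * (|C| + 1))) := by
            field_simp
        _ ≤ c / (256 * K) * y := mul_le_mul_of_nonneg_left hbig (by positivity)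
    have e3 := Real.exp_le_exp.mpr e2
    rw [Real.exp_log e1] at e3
    linarith
  have h8 : c / (2048 * K) * (Real.log x / (Real.log (Real.log x)) ^ 3) ≤
      c / (256 * K) * y := by
    calc c / (2048 * K) * (Real.log x / (Real.log (Real.log x)) ^ 3)
        ≤ c / (2048 * K) * (8 * y) := mul_le_mul_of_nonneg_left hx3 (by positivity)
      _ = c / (256 * K) * y := by field_simp; ring
  calc C * m * Real.exp (c / (2048 * K) * (Real.log x / (Real.log (Real.log x)) ^ 3))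
      ≤ (|C| + 1) * m * Real.exp (c / (256 * K) * y) := by
        apply mul_le_mul _ (Real.exp_le_exp.mpr h8) (Real.exp_nonneg _) (by positivity)
        exact mul_le_mul_of_nonneg_right (by linarith [le_abs_self C]) hm0
    _ ≤ (2500 / 10506 * Real.exp (c / (256 * K) * y)) * m * Real.exp (c / (256 * K) * y) := by
        apply mul_le_mul_of_nonneg_right _ (Real.exp_nonneg _)
        exact mul_le_mul_of_nonneg_right h7 hm0
    _ = 2500 / 10506 * (Real.exp (c / (256 * K) * y) * Real.exp (c / (256 * K) * y)) * m := by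
        ring
    _ = 2500 / 10506 * Real.exp (c / (128 * K) * y) * m := by
        rw [← Real.exp_add]
        congr 3
        field_simp
        ring
    _ ≤ 2500 / 10506 * Real.exp (c * 2 ^ a * (1 + 1 / ((a:ℝ) + 4))) ^ (0 + 1) * m := by
        apply mul_le_mul_of_nonneg_right _ hm0
        exact mul_le_mul_of_nonneg_left h6 (by norm_num)
    _ ≤ E := h4

/-- the final estimate in the form `x ^ (1 + c₁ / (log log x) ^ 3)` -/
theorem finalP3 : ∃ c₁ : ℝ, 0 < c₁ ∧ ∀ C : ℝ, ∀ᶠ m : ℕ in atTop, ∃ N E P, KLev.Has N E P ∧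
    N ≤ m ∧ ∀ x : ℝ, (m:ℝ) ≤ x → x ≤ 8 * m →
      C * x ^ (1 + c₁ / (Real.log (Real.log x)) ^ 3) ≤ E := by
  obtain ⟨c₁, hc₁, hE⟩ := finalE3
  refine ⟨c₁, hc₁, ?_⟩
  intro C
  filter_upwards [hE (8 * max C 0), eventually_ge_atTop 1] with m hm hm1
  obtain ⟨N, E, P, h1, h2, h3⟩ := hm
  refine ⟨N, E, P, h1, h2, ?_⟩
  intro x hx1 hx2
  have hm0 : (0:ℝ) < m := by exact_mod_cast hm1
  have hx : 0 < x := by linarith
  have h4 := h3 x hx1 hx2
  have e : x ^ (1 + c₁ / (Real.log (Real.log x)) ^ 3) =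
      x * Real.exp (c₁ * (Real.log x / (Real.log (Real.log x)) ^ 3)) := by
    rw [Real.rpow_add hx, Real.rpow_one, Real.rpow_def_of_pos hx]
    congr 2
    ring
  rw [e]
  have h5 : 0 ≤ max C 0 := le_max_right _ _
  set W := Real.exp (c₁ * (Real.log x / (Real.log (Real.log x)) ^ 3)) with hW
  have hW0 : 0 ≤ W := Real.exp_nonneg _
  calc C * (x * W) ≤ max C 0 * (x * W) :=
        mul_le_mul_of_nonneg_right (le_max_left _ _) (by positivity)
    _ ≤ max C 0 * ((8 * m) * W) := by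
        apply mul_le_mul_of_nonneg_left _ h5
        exact mul_le_mul_of_nonneg_right hx2 hW0
    _ = 8 * max C 0 * m * W := by ring
    _ ≤ E := h4

/-- every level that is not too close to the bottom or the top -/
theorem all_levels3 : ∃ c₁ : ℝ, 0 < c₁ ∧ ∃ k₀ : ℕ, ∀ n k : ℕ, k₀ ≤ k → k + k₀ ≤ n →
    (n : ℝ) * ((min k (n - k) : ℕ) : ℝ) ^
      (c₁ / (Real.log (Real.log ((min k (n - k) : ℕ) : ℝ))) ^ 3) ≤ (Levels.e k n : ℝ) := by
  obtain ⟨c₁, hc₁, hP⟩ := finalP3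
  refine ⟨c₁, hc₁, ?_⟩
  obtain ⟨a, ha⟩ := (hP 4).exists_forall_of_atTop
  refine ⟨a + 3, fun n k h1 h2 => ?_⟩
  obtain ⟨x, hx⟩ : ∃ x, x = min k (n - k) := ⟨_, rfl⟩
  rw [← hx]
  obtain ⟨N, E, P, hH, hN, hE⟩ := ha (x - 1) (by omega)
  have hx0 : (0:ℝ) < x := by
    have : 0 < x := by omega
    exact_mod_cast this
  have hE' := hE x (by exact_mod_cast (by omega : x - 1 ≤ x))
    (by exact_mod_cast (by omega : x ≤ 8 * (x - 1)))
  have key : ∃ g, g ≤ 2 * x ∧ 0 < g ∧ g ≤ n ∧ n / g * E ≤ Levels.e k n := by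
    by_cases hk : 2 * k + 1 ≤ n
    · exact ⟨N + k + 1, by omega, by omega, by omega,
        (many' hH (by omega : N ≤ k + 1) (by omega)).le_e⟩
    · refine ⟨N + (n - 2 - k) + 1, by omega, by omega, by omega, ?_⟩
      exact (flip (many' (n := n) hH (by omega : N ≤ (n - 2 - k) + 1) (by omega))
        (by omega : n - 2 - k + k + 2 = n)).le_e
  obtain ⟨g, g1, g0, g2, g3⟩ := key
  have g4 : n ≤ 4 * x * (n / g) := by
    have h5 : n < (n / g + 1) * g := Nat.lt_mul_of_div_lt (Nat.lt_succ_self _) g0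
    have h6 : 1 ≤ n / g := Nat.div_pos g2 g0
    have h7 : (n / g + 1) * g ≤ (2 * (n / g)) * (2 * x) := Nat.mul_le_mul (by omega) g1
    nlinarith
  set δ : ℝ := c₁ / (Real.log (Real.log (x : ℝ))) ^ 3 with hδ
  rw [Real.rpow_add hx0, Real.rpow_one] at hE'
  have g5 : (n:ℝ) ≤ 4 * x * ((n / g : ℕ) : ℝ) := by exact_mod_cast g4
  have g6 : (((n / g : ℕ) : ℝ)) * E ≤ Levels.e k n := by exact_mod_cast g3
  have hp : (0:ℝ) ≤ (x:ℝ) ^ δ := Real.rpow_nonneg hx0.le _
  have hd : (0:ℝ) ≤ ((n / g : ℕ) : ℝ) := Nat.cast_nonneg _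
  calc (n:ℝ) * (x:ℝ) ^ δ ≤ (4 * x * ((n / g : ℕ) : ℝ)) * (x:ℝ) ^ δ :=
        mul_le_mul_of_nonneg_right g5 hp
    _ = ((n / g : ℕ) : ℝ) * (4 * (x * (x:ℝ) ^ δ)) := by ring
    _ ≤ ((n / g : ℕ) : ℝ) * E := mul_le_mul_of_nonneg_left hE' hd
    _ ≤ _ := g6

end Pool.Agent.Helper15.KL
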