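import Pool.Graph.R_pool_sql_team_seeded_63374d34.N35.HL.AllK

/-!
# Outer blocks with an independent resolution of the slopes

`HasR Δ N E P Q T L Rd`: as `HasO` of the library, but the slopes are multiples of `1 / Rd` for a
number `Rd` which is not tied to the lower bound `Δ / T` of the slope differences, and `Δ` is the
scale of the inner block used in the last composition.  So inner blocks of different sizes can be
composed one after the other, and the resolution is paid only once.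
-/

set_option linter.unusedSectionVars false
set_option linter.unusedVariables false
set_option maxHeartbeats 1000000

namespace Pool.Agent.Helper15.KL

open Finset Pool.Agent.N35.HL

/-- outer block with `N` lines, `E` events, `P` slots per line, margins `1/Q`, `Δ/T`, size `L`,
slopes in multiples of `1/Rd` -/
def HasR (Δ N E P Q T L Rd : ℕ) : Prop :=
  1 ≤ P ∧ 1 ≤ E ∧ 1 ≤ Δ ∧ 1 ≤ Q ∧ 1 ≤ T ∧ ∃ (A R H : Type) (_ : Fintype A) (_ : Fintype R)
    (_ : Fintype H) (O : Out A R H) (k K : ℕ),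
    O.Good k K (1 / (51200 * Δ * P)) (1 / Q) (Δ / T) L Rd ∧
      Fintype.card A = N ∧ Fintype.card R = E ∧ Fintype.card H = P

/-- a finer resolution -/
lemma good_mul {A R H : Type} [Fintype A] [Fintype H] {O : Out A R H} {k K Rd : ℕ}
    {φ q Dl L : ℝ} (h : O.Good k K φ q Dl L Rd) {m : ℕ} (hm : 1 ≤ m) :
    O.Good k K φ q Dl L (Rd * m) := by
  have h1 : (Rd : ℝ) ≤ ((Rd * m : ℕ) : ℝ) := by
    exact_mod_cast Nat.le_mul_of_pos_right Rd hm
  exact
    { h with
      hRd := Nat.mul_pos h.hRd hm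
      slopes := fun c => by
        obtain ⟨z, hz⟩ := h.slopes c
        refine ⟨z * m, ?_⟩
        push_cast
        rw [← hz]; ring
      th := fun e c g h2 h3 h4 =>
        (h.th e c g h2 h3 h4).trans (mul_le_mul_of_nonneg_right h1 (abs_nonneg _)) }

theorem HasR.start {m : ℕ} (hm : 1 ≤ m) : HasR 1 2 1 1 4 2 1 (2 * m) := by
  refine ⟨le_rfl, le_rfl, le_rfl, by norm_num, by norm_num, Bool, Unit, Unit, inferInstance,
    inferInstance, inferInstance, N35.HL.start, 0, 1, ?_, by simp, by simp, by simp⟩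
  have h1 := good_mul (start_good (φ := 1 / (51200 * ((1:ℕ):ℝ) * ((1:ℕ):ℝ))) (by norm_num)) hm
  convert h1 using 1 <;> norm_num

/-- rescaling and choosing a class of events -/
theorem HasR.up {Δ N E P Q T L Rd : ℕ} (h : HasR Δ N E P Q T L Rd) (hL : 1 ≤ L) :
    ∃ Δ' E', HasI N E' P (2 * L * Rd) Δ' (4 * Rd * L ^ 2) (12 * Q) ∧
      E ≤ E' * (Nat.log 2 (12 * Rd) + 1) := by
  classical
  obtain ⟨hP, hE, hΔ, hQ, hT, A, R, H, _, _, _, O, k, K, hO, hA, hR, hH⟩ := h
  choose n hn1 hn2 hn3 using hO.nD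
  -- natural slopes
  have hs : ∀ c, ∃ m : ℕ, (m : ℝ) = O.s c * Rd + L * Rd := by
    intro c
    obtain ⟨z, hz⟩ := hO.slopes c
    have h1 : O.s c * Rd + L * Rd = ((z + L * Rd : ℤ) : ℝ) := by push_cast; rw [← hz]
    have h2 : (0:ℝ) ≤ ((z + L * Rd : ℤ) : ℝ) := by
      rw [← h1]
      have := (abs_le.mp (hO.bs c)).1
      have hR0 : (0:ℝ) ≤ (Rd:ℝ) := by positivity
      have := mul_le_mul_of_nonneg_right this hR0
      linarith
    have h3 : 0 ≤ z + L * Rd := by exact_mod_cast h2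
    refine ⟨(z + L * Rd).toNat, ?_⟩
    rw [h1]
    have h4 : (((z + L * Rd).toNat : ℕ) : ℤ) = z + L * Rd := Int.toNat_of_nonneg h3
    rw [← h4]; push_cast; rfl
  choose σ hσ using hs
  set J := Nat.log 2 (12 * Rd) + 1 with hJ
  -- the classes
  have hmaps : ∀ e ∈ (Finset.univ : Finset R), Nat.log 2 (n e) ∈ Finset.range J := by
    intro e _
    rw [Finset.mem_range, hJ]
    have := Nat.log_mono_right (b := 2) (hn3 e)
    omega
  have hJ0 : 0 < J := by omega
  have hcard : E = ∑ j ∈ Finset.range J,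
      (Finset.univ.filter (fun e : R => Nat.log 2 (n e) = j)).card := by
    rw [← hR, ← Finset.card_univ]
    exact Finset.card_eq_sum_card_fiberwise hmaps
  obtain ⟨j, hj, hj2⟩ : ∃ j ∈ Finset.range J,
      E ≤ (Finset.univ.filter (fun e : R => Nat.log 2 (n e) = j)).card * J := by
    by_contra hcon
    push Not at hcon
    have h1 : ∑ j ∈ Finset.range J,
        (Finset.univ.filter (fun e : R => Nat.log 2 (n e) = j)).card * J <
        ∑ _j ∈ Finset.range J, E :=
      Finset.sum_lt_sum_of_nonempty (Finset.nonempty_range_iff.mpr hJ0.ne') hcon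
    rw [← Finset.sum_mul, ← hcard] at h1
    simp only [Finset.sum_const, Finset.card_range, smul_eq_mul] at h1
    rw [mul_comm] at h1
    exact lt_irrefl _ h1
  set S : R → Prop := fun e => Nat.log 2 (n e) = j with hS
  have hScard : Fintype.card {e : R // S e} =
      (Finset.univ.filter (fun e : R => Nat.log 2 (n e) = j)).card := Fintype.card_subtype S
  have hpos : 1 ≤ (Finset.univ.filter (fun e : R => Nat.log 2 (n e) = j)).card := by
    by_contra h1
    have h2 : (Finset.univ.filter (fun e : R => Nat.log 2 (n e) = j)).card = 0 := by omega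
    rw [h2, zero_mul] at hj2
    omega
  have hne : ∃ e, S e := by
    obtain ⟨e, he⟩ := Finset.card_pos.mp hpos
    exact ⟨e, (Finset.mem_filter.mp he).2⟩
  have hgood := hO.inn (Q := Q) rfl hQ hL σ hσ (2 ^ j) Nat.one_le_two_pow S hne (by
    intro e he
    rw [← hn1 e]
    have he' : Nat.log 2 (n e) = j := he
    have h1 : 2 ^ j ≤ n e := by
      rw [← he']; exact Nat.pow_log_le_self 2 (by have := hn2 e; omega)
    have h2 : n e ≤ 2 * 2 ^ j := by
      have := Nat.lt_pow_succ_log_self (b := 2) (by norm_num) (n e)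
      rw [he', pow_succ] at this
      omega
    constructor
    · exact_mod_cast h1
    · exact_mod_cast h2)
  refine ⟨2 ^ j, Fintype.card {e : R // S e}, ⟨hP, by rw [hScard]; exact hpos, A, {e : R // S e}, H,
    inferInstance, inferInstance, inferInstance, O.inn Rd L σ S, k, hgood, hA, rfl, hH⟩, ?_⟩
  rw [hScard]
  exact hj2


/-- the parameters of a composition -/
noncomputable def prm' (Δ₀ Δ P Q U Rz P₂ Rd : ℕ) : Prm where
  Nx := 50 * P
  V₁ := 2500 * Rz * P
  Rz := Rz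
  Δ := Δ
  Rd := Rd
  φ := 1 / (51200 * Δ₀ * P)
  lam := 1 / (500 * Rz * (50 * P))
  κ := 1 / (2 ^ 18 * U * Rz * (50 * (50 * P * P₂)))
  ε := (1 / (51200 * Δ₀ * P)) * (1 / Q) / (2 ^ 13 * (50 * P))

theorem HasR.comp {Δ₀ Δ N E P Q T L Rd g E₂ P₂ Rz U M : ℕ} (hO : HasR Δ₀ N E P Q T L Rd)
    (hI : HasI g E₂ P₂ Rz Δ U M)
    (hc : T * (2 ^ 74 * (M * U * Rz ^ 3 * (P ^ 4 * P₂))) ≤ Rd) :
    HasR Δ (N * (g * Rz * 260100) * P ^ 2) (E * (125000 * E₂ * Rz * P ^ 2)) (50 * P * P₂)
      (Q * ((51200 * Δ₀ * P) * (2 ^ 13 * (50 * P)) * (2 ^ 18 * U * Rz * (50 * (50 * P * P₂))) *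
        (16 * M * Rz) * (2 * (51200 * Δ₀ * P) * (500 * Rz * (50 * P)))))
      (T * (5120000000 * Rz * P ^ 2)) (3 * L) Rd := by
  obtain ⟨hP, hE, hΔ₀, hQ1, hT1, A, R, H, _, _, _, O, k₁, K₁, hO, hA, hR, hH⟩ := hO
  obtain ⟨hP₂, hE₂, G, R₂, H₂, _, _, _, I, k₂, hI, hG, hR₂, hH₂⟩ := hI
  have hRne : Nonempty R₂ := Fintype.card_pos_iff.mp (by omega)
  obtain ⟨r⟩ := hRne
  obtain ⟨K, -, hK⟩ := Finset.exists_subset_card_eq
    (show k₂ ≤ (Finset.univ : Finset G).card from by rw [Finset.card_univ]; exact hI.k_le r)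
  set p := prm' Δ₀ Δ P Q U Rz P₂ Rd with hp
  -- positivity of all parameters
  have hΔ := hI.hΔ
  have hΔR := hI.hΔR
  have hRz : 1 ≤ Rz := hΔ.trans hΔR
  have hU1 : (1:ℝ) ≤ U := hI.hU
  have hM1 : (1:ℝ) ≤ M := hI.hM
  have hPr : (1:ℝ) ≤ P := by exact_mod_cast hP
  have hP₂r : (1:ℝ) ≤ P₂ := by exact_mod_cast hP₂
  have hΔr : (1:ℝ) ≤ Δ := by exact_mod_cast hΔ
  have hΔ₀r : (1:ℝ) ≤ Δ₀ := by exact_mod_cast hΔ₀
  have hRzr : (1:ℝ) ≤ Rz := by exact_mod_cast hRz
  have hΔRr : (Δ:ℝ) ≤ Rz := by exact_mod_cast hΔR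
  have hQr : (1:ℝ) ≤ Q := by exact_mod_cast hQ1
  have hTr : (1:ℝ) ≤ T := by exact_mod_cast hT1
  have hP0 : (0:ℝ) < P := by linarith
  have hP₂0 : (0:ℝ) < P₂ := by linarith
  have hΔ0 : (0:ℝ) < Δ := by linarith
  have hΔ₀0 : (0:ℝ) < Δ₀ := by linarith
  have hRz0 : (0:ℝ) < Rz := by linarith
  have hQ0 : (0:ℝ) < Q := by linarith
  have hT0 : (0:ℝ) < T := by linarith
  have hU0 : (0:ℝ) < U := by linarith
  have hM0 : (0:ℝ) < M := by linarith
  have hcr2 : (T:ℝ) * (2 ^ 74 * (M * U * Rz ^ 3 * (P ^ 4 * P₂))) ≤ Rd := by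
    exact_mod_cast hc
  have hRd1 : 1 ≤ Rd := hO.hRd
  have eV : (p.V : ℝ) = Rz * (50 * P) + 2500 * Rz * P := by
    have : p.V = Rz * (50 * P) + 2500 * Rz * P := rfl
    rw [this]; push_cast; ring
  have hφe : p.φ = 1 / (51200 * Δ₀ * P) := rfl
  have hle : p.lam = 1 / (500 * Rz * (50 * P)) := rfl
  have hκe : p.κ = 1 / (2 ^ 18 * U * Rz * (50 * (50 * P * P₂))) := rfl
  have hεe : p.ε = (1 / (51200 * Δ₀ * P)) * (1 / Q) / (2 ^ 13 * (50 * P)) := rfl
  have hNxe : (p.Nx : ℝ) = 50 * P := by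
    have : p.Nx = 50 * P := rfl
    rw [this]; push_cast; ring
  have hRze : (p.Rz : ℝ) = Rz := rfl
  have hΔe : (p.Δ : ℝ) = Δ := rfl
  have hRde : (p.Rd : ℝ) = Rd := rfl
  have hδe : p.δ = 1 / (51200 * Δ₀ * P) * (1 / (500 * Rz * (50 * P))) / 2 := rfl
  have hOK : p.OK (1 / (51200 * Δ * ((50 * P * P₂ : ℕ) : ℝ))) (1 / Q) (Δ₀ / T) U M := by
    refine
      { hNx := by change 1 ≤ 50 * P; omega
        hΔ := hΔ
        hΔR := hΔR
        hRd := hRd1
        hq := by positivity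
        hq1 := by rw [div_le_one hQ0]; exact hQr
        hqD := hO.hqD
        hφ0 := by rw [hφe]; positivity
        hφ1 := ?_
        hl0 := by rw [hle]; positivity
        hl1 := ?_
        hU := hU1
        hM := hM1
        hκ0 := by rw [hκe]; positivity
        hκ1 := ?_
        hκ2 := ?_
        hφ' := by positivity
        hφ'1 := ?_
        hε0 := by rw [hεe]; positivity
        hε1 := ?_
        hrd := ?_ }
    · rw [hφe, hNxe, div_mul_eq_mul_div, div_le_div_iff₀ (by positivity) (by norm_num)]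
      have : (1:ℝ) * P ≤ Δ₀ * P := mul_le_mul_of_nonneg_right hΔ₀r hP0.le
      nlinarith
    · rw [hle, hNxe, hRze, eV, div_mul_eq_mul_div, div_le_div_iff₀ (by positivity) (by norm_num)]
      have : (1:ℝ) ≤ Rz * P := by nlinarith
      nlinarith
    · rw [hκe, hle, div_mul_eq_mul_div, div_div, div_le_div_iff₀ (by positivity) (by positivity)]
      have a1 : (U:ℝ) + 1 ≤ 2 * U := by linarith
      have a2 : (0:ℝ) < Rz * P := by positivity
      have a3 : (Rz * P : ℝ) * 1 ≤ Rz * P * P₂ := mul_le_mul_of_nonneg_left hP₂r a2.le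
      have a4 : (1 * ((U:ℝ) + 1)) * (500 * Rz * (50 * P) * 64) ≤
          (2 * U) * (500 * Rz * (50 * P) * 64) := by
        apply mul_le_mul_of_nonneg_right _ (by positivity)
        linarith
      refine a4.trans ?_
      have a5 : (U:ℝ) * (Rz * P * 1) ≤ U * (Rz * P * P₂) := mul_le_mul_of_nonneg_left a3 hU0.le
      have a6 : (0:ℝ) < U * (Rz * P * P₂) := by positivity
      nlinarith
    · rw [hκe, hΔe]
      have a1 : (U:ℝ) + 1 ≤ 2 * U := by linarith
      have e1 : (1 / (51200 * (Δ:ℝ) * ((50 * P * P₂ : ℕ) : ℝ))) * Δ = 1 / (51200 * (50 * P * P₂)) := by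
        push_cast
        field_simp
      rw [e1, div_mul_eq_mul_div, mul_div_assoc', div_le_div_iff₀ (by positivity) (by positivity)]
      have a2 : (0:ℝ) < P * P₂ := by positivity
      have a3 : (U * (P * P₂) : ℝ) * 1 ≤ U * (P * P₂) * Rz :=
        mul_le_mul_of_nonneg_left hRzr (by positivity)
      have a4 : (128 * (1 * ((U:ℝ) + 1))) * (51200 * (50 * P * P₂)) ≤
          (128 * (2 * U)) * (51200 * (50 * P * P₂)) := by
        apply mul_le_mul_of_nonneg_right _ (by positivity)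
        linarith
      refine a4.trans ?_
      nlinarith
    · rw [hΔe, hNxe]
      have e1 : (1 / (51200 * (Δ:ℝ) * ((50 * P * P₂ : ℕ) : ℝ))) * Δ = 1 / (51200 * (50 * P * P₂)) := by
        push_cast
        field_simp
      rw [e1, mul_div_assoc', div_mul_eq_mul_div, div_le_one (by positivity)]
      have a3 : (P : ℝ) * 1 ≤ P * P₂ := mul_le_mul_of_nonneg_left hP₂r hP0.le
      nlinarith
    · rw [hεe, hφe, hNxe]
      have e1 : 400 * ((1 / (51200 * (Δ₀:ℝ) * P)) * (1 / Q) / (2 ^ 13 * (50 * P)) * (50 * P + 6)) =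
        (1 / (51200 * Δ₀ * P) * (1 / Q)) * (400 * (50 * P + 6) / (2 ^ 13 * (50 * P))) := by ring
      rw [e1]
      have h1 : 400 * (50 * (P:ℝ) + 6) / (2 ^ 13 * (50 * P)) ≤ 1 := by
        rw [div_le_one (by positivity)]; nlinarith
      have h2 : 0 ≤ (1 / (51200 * (Δ₀:ℝ) * P) * (1 / Q)) := by positivity
      nlinarith
    · rw [hRde, hRze, hNxe, hδe, hκe]
      have e1 : (Rd:ℝ) * (Δ₀ / T) * (1 / (51200 * Δ₀ * P) * (1 / (500 * Rz * (50 * P))) / 2 *
          (1 / (2 ^ 18 * U * Rz * (50 * (50 * P * P₂))))) =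
          Rd / (T * (51200 * 25000 * 2 * 2 ^ 18 * 2500 * (U * Rz ^ 2 * P ^ 3 * P₂))) := by
        field_simp
        norm_num
      rw [e1, le_div_iff₀ (by positivity)]
      refine le_trans ?_ hcr2
      have h2 : (50 * (P:ℝ) + 2) ≤ 52 * P := by linarith
      have h4 : 0 < (T:ℝ) * (M * U * Rz ^ 3 * (P ^ 4 * P₂)) := by positivity
      calc 200 * ((M:ℝ) * Rz * (50 * P + 2)) *
            ((T:ℝ) * (51200 * 25000 * 2 * 2 ^ 18 * 2500 * (U * Rz ^ 2 * P ^ 3 * P₂)))
          ≤ 200 * ((M:ℝ) * Rz * (52 * P)) *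
            ((T:ℝ) * (51200 * 25000 * 2 * 2 ^ 18 * 2500 * (U * Rz ^ 2 * P ^ 3 * P₂))) := by
            apply mul_le_mul_of_nonneg_right _ (by positivity)
            apply mul_le_mul_of_nonneg_left _ (by norm_num)
            exact mul_le_mul_of_nonneg_left h2 (by positivity)
        _ = (200 * 52 * (51200 * 25000 * 2 * 2 ^ 18 * 2500)) *
            ((T:ℝ) * (M * U * Rz ^ 3 * (P ^ 4 * P₂))) := by ring
        _ ≤ 2 ^ 74 * ((T:ℝ) * (M * U * Rz ^ 3 * (P ^ 4 * P₂))) := by
            apply mul_le_mul_of_nonneg_right _ h4.le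
            norm_num
        _ = (T:ℝ) * (2 ^ 74 * (M * U * Rz ^ 3 * (P ^ 4 * P₂))) := by ring
  obtain ⟨k, K', hgood⟩ := comp_good (K := K) (p := p) (m := 1)
    hO hI hOK hK (by change Rd = Rd * 1; rw [mul_one])
  refine ⟨?_, ?_, hΔ, ?_, ?_, Idx A G H p.Nx p.V, Ev' R R₂ p.Nx p.V₁, Fin p.Nx × H₂, inferInstance,
    inferInstance, inferInstance, N35.HL.comp O I p K, k, K', ?_, ?_, ?_, ?_⟩
  · exact Nat.one_le_iff_ne_zero.mpr (by
      have : P ≠ 0 := by omega
      have : P₂ ≠ 0 := by omega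
      positivity)
  · exact Nat.one_le_iff_ne_zero.mpr (by
      have : P ≠ 0 := by omega
      have : E ≠ 0 := by omega
      have : E₂ ≠ 0 := by omega
      have : Rz ≠ 0 := by omega
      positivity)
  · have hU' : 1 ≤ U := by exact_mod_cast hU1
    have hM' : 1 ≤ M := by exact_mod_cast hM1
    have h1 : 0 < Q * ((51200 * Δ₀ * P) * (2 ^ 13 * (50 * P)) *
        (2 ^ 18 * U * Rz * (50 * (50 * P * P₂))) *
        (16 * M * Rz) * (2 * (51200 * Δ₀ * P) * (500 * Rz * (50 * P)))) := by positivity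
    exact h1
  · have h1 : 0 < T * (5120000000 * Rz * P ^ 2) := by positivity
    exact h1
  · convert hgood using 1
    · have e1 : p.qs M = p.ε * p.κ / (4 * M * Rz) := rfl
      rw [e1, hεe, hκe, hδe]
      push_cast
      field_simp
      try norm_num
    · rw [hδe, hΔe]
      push_cast
      field_simp
      try norm_num
    · push_cast; ring
    · rfl
  · simp only [Fintype.card_prod, Fintype.card_sum, Fintype.card_fin, Fintype.card_bool, hA, hG, hH]
    have e1 : p.Nx = 50 * P := rfl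
    have e2 : p.V = Rz * (50 * P) + 2500 * Rz * P := rfl
    rw [e1, e2]; ring
  · simp only [Fintype.card_prod, Fintype.card_fin, hR, hR₂]
    have e1 : p.Nx = 50 * P := rfl
    have e2 : p.V₁ = 2500 * Rz * P := rfl
    rw [e1, e2]; ring
  · simp only [Fintype.card_prod, Fintype.card_fin, hH₂]
    have e1 : p.Nx = 50 * P := rfl
    rw [e1]

end Pool.Agent.Helper15.KL
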