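import Pool.Agent.Helper15.KL.Sched

/-!
# The inequalities of one step
-/

set_option linter.unusedSectionVars false
set_option linter.unusedVariables false

namespace Pool.Agent.Helper15.KL

open Finset

/-- resolution of the slopes in one step -/
def rho (A B a ν : ℕ) : ℕ :=
  75 + ∑ i ∈ range (num ν), Rf A (ex a ν i) + 33 * num ν +
    2 * (num ν * (B * 2 ^ (a + ν + 6))) + 5 * (B * 2 ^ (a + ν + 6)) +
    A * 2 ^ (a - (ν + 1)) * (a + ν + 10) ^ 3

section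

variable {A B a ν : ℕ} (h1 : 2 ^ ν ≤ a + ν + 10) (h2 : a + ν + 10 < 2 ^ (ν + 1))
  (ha : ν + 1 ≤ a) (hν : 4 ≤ ν) (h20 : 20 ≤ a + ν + 6) (hB : 6 ≤ B) (hA : 1 + 161 * B ≤ A)

include h1 h2 ha hν h20 hB hA

lemma num_le : num ν ≤ 32 * ((a + ν + 10) * (ν + 3)) := by
  unfold num
  calc 2 ^ (ν + 5) * (ν + 3) = 32 * (2 ^ ν * (ν + 3)) := by rw [pow_add]; ring
    _ ≤ _ := Nat.mul_le_mul_left _ (Nat.mul_le_mul_right _ h1)

lemma two_le_num : 2 ≤ num ν := by
  unfold num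
  calc 2 = 1 * 2 := by norm_num
    _ ≤ 2 ^ (ν + 5) * (ν + 3) := Nat.mul_le_mul Nat.one_le_two_pow (by omega)

lemma X_ge : 1048576 ≤ 2 ^ (a + ν + 6) := by
  calc 1048576 = 2 ^ 20 := by norm_num
    _ ≤ _ := Nat.pow_le_pow_right (by norm_num) h20

lemma slack_le : A * 2 ^ (a - (ν + 1)) * (a + ν + 10) ^ 3 ≤
    A * (2 ^ (a + ν + 6) * (a + ν + 10)) := by
  have e1 : 2 ^ (a + ν + 6) = 2 ^ (a - (ν + 1)) * ((2 ^ (ν + 1)) ^ 2 * 32) := by
    have : (2 ^ (ν + 1)) ^ 2 * 32 = 2 ^ (2 * (ν + 1) + 5) := by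
      rw [← pow_mul, show (32:ℕ) = 2 ^ 5 by norm_num, ← pow_add]
      congr 1; ring
    rw [this, ← pow_add]
    congr 1
    omega
  have e2 : (a + ν + 10) ^ 2 ≤ (2 ^ (ν + 1)) ^ 2 * 32 :=
    (Nat.pow_le_pow_left h2.le 2).trans (Nat.le_mul_of_pos_right _ (by norm_num))
  calc A * 2 ^ (a - (ν + 1)) * (a + ν + 10) ^ 3
      = A * (2 ^ (a - (ν + 1)) * (a + ν + 10) ^ 2 * (a + ν + 10)) := by ring
    _ ≤ A * (2 ^ (a + ν + 6) * (a + ν + 10)) := by
        apply Nat.mul_le_mul_left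
        apply Nat.mul_le_mul_right
        rw [e1]
        exact Nat.mul_le_mul_left _ e2

lemma ineq_rho : ∀ l < num ν, 1 + ST (fun i => Rf A (ex a ν i)) (fun i => Bf B (ex a ν i)) l +
    (74 + Tf A (ex a ν l) + 3 * Rf A (ex a ν l) + 4 * SB (fun i => Bf B (ex a ν i)) l +
      Bf B (ex a ν l)) ≤ rho A B a ν := by
  intro l hl
  have t1 := tail (A := A) h2 rfl ha hl
  have t2 := SB_le (B := B) ha hB hl.le
  have t3 : Bf B (ex a ν l) ≤ B * 2 ^ (a + ν + 6) := Bf_le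
  have t4 : ST (fun i => Rf A (ex a ν i)) (fun i => Bf B (ex a ν i)) l ≤
      33 * num ν + ∑ i ∈ range l, Rf A (ex a ν i) + 2 * (num ν * (B * 2 ^ (a + ν + 6))) := by
    unfold ST
    rw [sum_add_distrib, sum_add_distrib]
    have e1 : ∑ i ∈ range l, 33 = 33 * l := by simp [mul_comm]
    have e2 : ∑ i ∈ range l, 2 * SB (fun i => Bf B (ex a ν i)) i ≤
        2 * (l * (B * 2 ^ (a + ν + 6))) := by
      rw [← mul_sum]
      apply Nat.mul_le_mul_left
      calc ∑ i ∈ range l, SB (fun i => Bf B (ex a ν i)) i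
          ≤ ∑ i ∈ range l, B * 2 ^ (a + ν + 6) := by
            apply sum_le_sum
            intro i hi
            rw [mem_range] at hi
            exact SB_le ha hB (by omega)
        _ = l * (B * 2 ^ (a + ν + 6)) := by simp
    have e3 : l * (B * 2 ^ (a + ν + 6)) ≤ num ν * (B * 2 ^ (a + ν + 6)) :=
      Nat.mul_le_mul_right _ hl.le
    omega
  unfold rho
  omega

/-- the common estimate of the remainder terms -/
lemma rest : 8 + 101 * num ν + 5 * (num ν * (B * 2 ^ (a + ν + 6))) + B * 2 ^ (a + ν + 6) ≤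
    A * (2 ^ (a + ν + 6) * ((a + ν + 10) * (ν + 3))) := by
  have n1 := num_le h1 h2 ha hν h20 hB hA
  have x1 := X_ge h1 h2 ha hν h20 hB hA
  obtain ⟨X, hX⟩ : ∃ X, X = 2 ^ (a + ν + 6) := ⟨_, rfl⟩
  obtain ⟨Y, hY⟩ : ∃ Y, Y = (a + ν + 10) * (ν + 3) := ⟨_, rfl⟩
  rw [← hX] at x1 ⊢
  rw [← hY] at n1 ⊢
  have y1 : 24 ≤ Y := by
    rw [hY]
    calc 24 ≤ 24 * 1 := by norm_num
      _ ≤ (a + ν + 10) * (ν + 3) := Nat.mul_le_mul (by omega) (by omega)
  have a1 : 8 + 101 * num ν ≤ X * Y := by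
    calc 8 + 101 * num ν ≤ 1048576 * Y := by omega
      _ ≤ X * Y := Nat.mul_le_mul_right _ x1
  have a2 : num ν * (B * X) ≤ 32 * (B * (X * Y)) := by
    calc num ν * (B * X) ≤ (32 * Y) * (B * X) := Nat.mul_le_mul_right _ n1
      _ = _ := by ring
  have a3 : B * X ≤ B * (X * Y) := by
    apply Nat.mul_le_mul_left
    exact Nat.le_mul_of_pos_right _ (by omega)
  calc 8 + 101 * num ν + 5 * (num ν * (B * X)) + B * X ≤ X * Y + 161 * (B * (X * Y)) := by omega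
    _ = (1 + 161 * B) * (X * Y) := by ring
    _ ≤ A * (X * Y) := Nat.mul_le_mul_right _ hA

lemma ineq_R : 1 + 2 * num ν + rho A B a ν ≤ Rf A (a + ν + 6) := by
  have r1 := rest h1 h2 ha hν h20 hB hA
  have s1 := slack_le h1 h2 ha hν h20 hB hA
  have t1 := sum_Rf (A := A) ha
  have n2 := two_le_num h1 h2 ha hν h20 hB hA
  have x1 := X_ge h1 h2 ha hν h20 hB hA
  unfold rho Rf
  unfold Rf at t1
  have e0 : a + ν + 6 + 4 = a + ν + 10 := by ring
  rw [e0]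
  obtain ⟨X, hX⟩ : ∃ X, X = 2 ^ (a + ν + 6) := ⟨_, rfl⟩
  obtain ⟨S, hS⟩ : ∃ S, S = A * 2 ^ (a - (ν + 1)) * (a + ν + 10) ^ 3 := ⟨_, rfl⟩
  obtain ⟨V, hV⟩ : ∃ S, S = ∑ i ∈ range (num ν), A * 2 ^ ex a ν i * (ex a ν i + 4) ^ 2 := ⟨_, rfl⟩
  rw [← hX] at r1 s1 t1 x1 ⊢
  rw [← hS] at s1 ⊢
  rw [← hV] at t1 ⊢
  obtain ⟨Z, hZ⟩ : ∃ Z, Z = num ν * (B * X) := ⟨_, rfl⟩
  rw [← hZ] at r1 ⊢
  -- the gain
  have g1 : A * (a + 4) ^ 2 * X + A * (X * ((a + ν + 10) * (ν + 3))) + A * (X * (a + ν + 10)) +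
      2 * (A * (X * (a + ν + 10))) ≤ A * X * (a + ν + 10) ^ 2 := by
    have : A * X * (a + ν + 10) ^ 2 = (A * (a + 4) ^ 2 * X +
      A * (X * ((a + ν + 10) * (ν + 3))) + A * (X * (a + ν + 10)) +
      2 * (A * (X * (a + ν + 10)))) + A * X * ((a + 4) * (ν + 6)) := by ring
    omega
  have g2 : B * X ≤ A * (X * (a + ν + 10)) := by
    calc B * X ≤ A * X := Nat.mul_le_mul_right _ (by omega)
      _ ≤ A * (X * (a + ν + 10)) := by
        apply Nat.mul_le_mul_left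
        exact Nat.le_mul_of_pos_right _ (by omega)
  have g3 : 4 * (B * X) ≤ 3 * (A * (X * (a + ν + 10))) := by
    calc 4 * (B * X) ≤ A * X * 1 := by
          have : 4 * B ≤ A := by omega
          calc 4 * (B * X) = (4 * B) * X := by ring
            _ ≤ A * X := Nat.mul_le_mul_right _ this
            _ = A * X * 1 := by ring
      _ ≤ A * X * (3 * (a + ν + 10)) := Nat.mul_le_mul_left _ (by omega)
      _ = _ := by ring
  have g4 : 4 * (B * X) ≤ 2 * (A * (X * (a + ν + 10))) := by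
    calc 4 * (B * X) = (4 * B) * X := by ring
      _ ≤ A * X := Nat.mul_le_mul_right _ (by omega)
      _ = A * (X * 1) := by ring
      _ ≤ A * (X * (2 * (a + ν + 10))) := by
          apply Nat.mul_le_mul_left
          exact Nat.mul_le_mul_left _ (by omega)
      _ = _ := by ring
  have g5 : 76 ≤ 2 * (A * (X * (a + ν + 10))) := by
    have : 1 * (1048576 * 1) ≤ A * (X * (a + ν + 10)) :=
      Nat.mul_le_mul (by omega) (Nat.mul_le_mul x1 (by omega))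
    omega
  have g6 : A * (X * (a + ν + 10)) + A * (X * (a + ν + 10)) ≤ 2 * (A * (X * (a + ν + 10))) := by
    omega
  have g7 : 4 * (B * X) + 76 ≤ 2 * (A * (X * (a + ν + 10))) := by
    have h76 : 76 ≤ A * (X * (a + ν + 10)) := by
      have : 1 * (1048576 * 1) ≤ A * (X * (a + ν + 10)) :=
        Nat.mul_le_mul (by omega) (Nat.mul_le_mul x1 (by omega))
      omega
    have h4 : 4 * (B * X) ≤ A * (X * (a + ν + 10)) := by
      calc 4 * (B * X) = (4 * B) * X := by ring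
        _ ≤ A * X := Nat.mul_le_mul_right _ (by omega)
        _ = A * (X * 1) := by ring
        _ ≤ A * (X * (a + ν + 10)) := by
            apply Nat.mul_le_mul_left
            exact Nat.mul_le_mul_left _ (by omega)
    omega
  omega

lemma ineq_b : 6 + SB (fun i => Bf B (ex a ν i)) (num ν) ≤ Bf B (a + ν + 6) := by
  have t1 := sum_Bf (B := B) ha hB
  have n2 := two_le_num h1 h2 ha hν h20 hB hA
  change 6 + ∑ i ∈ range (num ν), Bf B (ex a ν i) ≤ _
  have e1 : Bf B (a + ν + 6) = B * 2 ^ (a + ν + 6) - 6 := rfl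
  rw [e1]
  omega

lemma cube : A * (a + 4) ^ 3 * 2 ^ (a + ν + 6) +
    A * (2 ^ (a + ν + 6) * (a + ν + 10) ^ 2) * (ν + 6) ≤ Tf A (a + ν + 6) := by
  unfold Tf
  have e0 : a + ν + 6 + 4 = a + ν + 10 := by ring
  rw [e0]
  obtain ⟨X, hX⟩ : ∃ X, X = 2 ^ (a + ν + 6) := ⟨_, rfl⟩
  rw [← hX]
  have : A * X * (a + ν + 10) ^ 3 = A * (a + 4) ^ 3 * X + A * (X * (a + ν + 10) ^ 2) * (ν + 6) +
    A * X * ((a + 4) ^ 2 * (ν + 6) * 2 + (a + 4) * (ν + 6) ^ 2) := by ring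
  omega

lemma ineq_S {c₁ c₂ : ℕ} : A * (2 ^ (a + ν + 6) * ((a + ν + 10) * (ν + 3))) ≤
    A * (2 ^ (a + ν + 6) * (a + ν + 10) ^ 2) * ν := by
  obtain ⟨X, hX⟩ : ∃ X, X = 2 ^ (a + ν + 6) := ⟨_, rfl⟩
  rw [← hX]
  calc A * (X * ((a + ν + 10) * (ν + 3))) = A * X * (a + ν + 10) * (ν + 3) := by ring
    _ ≤ A * X * (a + ν + 10) * ((a + ν + 10) * ν) := by
        apply Nat.mul_le_mul_left
        calc ν + 3 ≤ 24 * ν := by omega
          _ ≤ (a + ν + 10) * ν := Nat.mul_le_mul_right _ (by omega)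
    _ = _ := by ring

lemma ineq_Q : 8 + rho A B a ν + 4 * num ν + SQ (fun i => Rf A (ex a ν i))
    (fun i => Tf A (ex a ν i)) (fun i => Bf B (ex a ν i)) (num ν) ≤ Tf A (a + ν + 6) := by
  have r1 := rest h1 h2 ha hν h20 hB hA
  have r2 := ineq_R h1 h2 ha hν h20 hB hA
  have t1 := sum_Rf (A := A) ha
  have t2 := sum_Tf (A := A) ha
  have t3 := sum_Bf (B := B) ha hB
  have c1 := cube h1 h2 ha hν h20 hB hA
  have s1 := ineq_S (c₁ := 0) (c₂ := 0) h1 h2 ha hν h20 hB hA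
  have q1 : SQ (fun i => Rf A (ex a ν i)) (fun i => Tf A (ex a ν i)) (fun i => Bf B (ex a ν i))
      (num ν) ≤ 99 * num ν + 5 * ∑ i ∈ range (num ν), Rf A (ex a ν i) +
      ∑ i ∈ range (num ν), Tf A (ex a ν i) + 5 * (num ν * (B * 2 ^ (a + ν + 6))) +
      ∑ i ∈ range (num ν), Bf B (ex a ν i) := by
    simp only [SQ, sum_add_distrib]
    have e1 : ∑ i ∈ range (num ν), 99 = 99 * num ν := by simp [mul_comm]
    have e2 : ∑ i ∈ range (num ν), 5 * SB (fun i => Bf B (ex a ν i)) i ≤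
        5 * (num ν * (B * 2 ^ (a + ν + 6))) := by
      rw [← mul_sum]
      apply Nat.mul_le_mul_left
      calc ∑ i ∈ range (num ν), SB (fun i => Bf B (ex a ν i)) i
          ≤ ∑ i ∈ range (num ν), B * 2 ^ (a + ν + 6) := by
            apply sum_le_sum
            intro i hi
            rw [mem_range] at hi
            exact SB_le ha hB hi.le
        _ = num ν * (B * 2 ^ (a + ν + 6)) := by simp
    have e3 : ∑ i ∈ range (num ν), 2 * pr (fun i => Rf A (ex a ν i)) i ≤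
        2 * ∑ i ∈ range (num ν), Rf A (ex a ν i) := by
      rw [← mul_sum]
      apply Nat.mul_le_mul_left
      obtain ⟨m, hm⟩ : ∃ m, num ν = m + 1 :=
        ⟨num ν - 1, by have := two_le_num h1 h2 ha hν h20 hB hA; omega⟩
      rw [hm, sum_range_succ', sum_range_succ]
      simp only [pr]
      omega
    have e4 : ∑ i ∈ range (num ν), 3 * Rf A (ex a ν i) =
        3 * ∑ i ∈ range (num ν), Rf A (ex a ν i) := by rw [mul_sum]
    omega
  obtain ⟨X, hX⟩ : ∃ X, X = 2 ^ (a + ν + 6) := ⟨_, rfl⟩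
  have k1 : A * (a + 4) ^ 2 * 2 ^ (a + ν + 6) ≤ A * (2 ^ (a + ν + 6) * (a + ν + 10) ^ 2) := by
    calc A * (a + 4) ^ 2 * 2 ^ (a + ν + 6) = A * (2 ^ (a + ν + 6) * (a + 4) ^ 2) := by ring
      _ ≤ _ := by
        apply Nat.mul_le_mul_left
        apply Nat.mul_le_mul_left
        exact Nat.pow_le_pow_left (by omega) 2
  have k2 : Rf A (a + ν + 6) = A * (2 ^ (a + ν + 6) * (a + ν + 10) ^ 2) := by
    unfold Rf
    have e0 : a + ν + 6 + 4 = a + ν + 10 := by ring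
    rw [e0]; ring
  have k3 : A * (2 ^ (a + ν + 6) * (a + ν + 10) ^ 2) * (ν + 6) =
    A * (2 ^ (a + ν + 6) * (a + ν + 10) ^ 2) * ν +
      6 * (A * (2 ^ (a + ν + 6) * (a + ν + 10) ^ 2)) := by ring
  omega

lemma ineq_N : 1 + SN (fun i => Tf A (ex a ν i)) (fun i => Rf A (ex a ν i))
    (fun i => Bf B (ex a ν i)) (num ν) ≤ Tf A (a + ν + 6) := by
  have r1 := rest h1 h2 ha hν h20 hB hA
  have t1 := sum_Rf (A := A) ha
  have t2 := sum_Tf (A := A) ha
  have c1 := cube h1 h2 ha hν h20 hB hA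
  have s1 := ineq_S (c₁ := 0) (c₂ := 0) h1 h2 ha hν h20 hB hA
  have q1 : SN (fun i => Tf A (ex a ν i)) (fun i => Rf A (ex a ν i)) (fun i => Bf B (ex a ν i))
      (num ν) ≤ 18 * num ν + ∑ i ∈ range (num ν), Tf A (ex a ν i) +
      ∑ i ∈ range (num ν), Rf A (ex a ν i) + 2 * (num ν * (B * 2 ^ (a + ν + 6))) := by
    simp only [SN, sum_add_distrib]
    have e1 : ∑ i ∈ range (num ν), 18 = 18 * num ν := by simp [mul_comm]
    have e2 : ∑ i ∈ range (num ν), 2 * SB (fun i => Bf B (ex a ν i)) i ≤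
        2 * (num ν * (B * 2 ^ (a + ν + 6))) := by
      rw [← mul_sum]
      apply Nat.mul_le_mul_left
      calc ∑ i ∈ range (num ν), SB (fun i => Bf B (ex a ν i)) i
          ≤ ∑ i ∈ range (num ν), B * 2 ^ (a + ν + 6) := by
            apply sum_le_sum
            intro i hi
            rw [mem_range] at hi
            exact SB_le ha hB hi.le
        _ = num ν * (B * 2 ^ (a + ν + 6)) := by simp
    omega
  have k1 : A * (a + 4) ^ 2 * 2 ^ (a + ν + 6) ≤ A * (2 ^ (a + ν + 6) * (a + ν + 10) ^ 2) := by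
    calc A * (a + 4) ^ 2 * 2 ^ (a + ν + 6) = A * (2 ^ (a + ν + 6) * (a + 4) ^ 2) := by ring
      _ ≤ _ := by
        apply Nat.mul_le_mul_left
        apply Nat.mul_le_mul_left
        exact Nat.pow_le_pow_left (by omega) 2
  have k3 : A * (2 ^ (a + ν + 6) * (a + ν + 10) ^ 2) * (ν + 6) =
    A * (2 ^ (a + ν + 6) * (a + ν + 10) ^ 2) * ν +
      6 * (A * (2 ^ (a + ν + 6) * (a + ν + 10) ^ 2)) := by ring
  omega

end

end Pool.Agent.Helper15.KL
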