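import Pool.Agent.Helper15.KL.Sums

/-!
# Sums over the schedule
-/

set_option linter.unusedSectionVars false
set_option linter.unusedVariables false

namespace Pool.Agent.Helper15.KL

open Finset

/-- sums over blocks of equal length -/
lemma sum_groups (N m : ℕ) (hN : 0 < N) (g : ℕ → ℕ) :
    ∑ i ∈ range (N * m), g (i / N) = N * ∑ q ∈ range m, g q := by
  induction m with
  | zero => simp
  | succ m ih =>
    have : ∀ j ∈ range N, g ((N * m + j) / N) = g m := by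
      intro j hj
      rw [mem_range] at hj
      congr 1
      rw [Nat.mul_add_div hN, Nat.div_eq_of_lt hj, add_zero]
    rw [Nat.mul_succ, sum_range_add, ih, sum_range_succ, mul_add, sum_congr rfl this]
    simp

lemma sum_pows (a Q : ℕ) (h : Q ≤ a) : ∑ q ∈ range Q, 2 ^ (a - q) + 2 * 2 ^ (a - Q) = 2 ^ (a + 1) := by
  induction Q with
  | zero => simp [pow_succ, mul_comm]
  | succ Q ih =>
    have h1 := ih (by omega)
    rw [sum_range_succ]
    have h2 : a - Q = (a - (Q + 1)) + 1 := by omega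
    have h3 : 2 ^ (a - Q) = 2 * 2 ^ (a - (Q + 1)) := by rw [h2, pow_succ]; ring
    omega

lemma sum_min (a Q : ℕ) (h : Q ≤ a) : ∑ q ∈ range (Q + 2), 2 ^ (a - min q Q) = 2 ^ (a + 1) := by
  rw [sum_range_succ, sum_range_succ]
  have h1 : ∑ q ∈ range Q, 2 ^ (a - min q Q) = ∑ q ∈ range Q, 2 ^ (a - q) := by
    apply sum_congr rfl
    intro q hq
    rw [mem_range] at hq
    rw [min_eq_left hq.le]
  rw [h1, min_self, min_eq_right (Nat.le_succ Q)]
  have := sum_pows a Q h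
  omega

lemma sum_ex {a ν : ℕ} (h : ν + 1 ≤ a) :
    ∑ i ∈ range (num ν), 2 ^ ex a ν i = 2 ^ (a + ν + 6) := by
  unfold num ex
  rw [sum_groups (2 ^ (ν + 5)) (ν + 3) (by positivity) (fun q => 2 ^ (a - min q (ν + 1))),
    sum_min a (ν + 1) h, ← pow_add]
  congr 1
  omega

lemma ex_le (a ν i : ℕ) : ex a ν i ≤ a := Nat.sub_le _ _

lemma sum_Rf {a ν A : ℕ} (h : ν + 1 ≤ a) :
    ∑ i ∈ range (num ν), Rf A (ex a ν i) ≤ A * (a + 4) ^ 2 * 2 ^ (a + ν + 6) := by
  rw [← sum_ex h, mul_sum]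
  apply sum_le_sum
  intro i _
  unfold Rf
  have h1 : (ex a ν i + 4) ^ 2 ≤ (a + 4) ^ 2 := Nat.pow_le_pow_left (by have := ex_le a ν i; omega) 2
  calc A * 2 ^ ex a ν i * (ex a ν i + 4) ^ 2 ≤ A * 2 ^ ex a ν i * (a + 4) ^ 2 :=
        Nat.mul_le_mul_left _ h1
    _ = _ := by ring

lemma sum_Tf {a ν A : ℕ} (h : ν + 1 ≤ a) :
    ∑ i ∈ range (num ν), Tf A (ex a ν i) ≤ A * (a + 4) ^ 3 * 2 ^ (a + ν + 6) := by
  rw [← sum_ex h, mul_sum]
  apply sum_le_sum
  intro i _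
  unfold Tf
  have h1 : (ex a ν i + 4) ^ 3 ≤ (a + 4) ^ 3 := Nat.pow_le_pow_left (by have := ex_le a ν i; omega) 3
  calc A * 2 ^ ex a ν i * (ex a ν i + 4) ^ 3 ≤ A * 2 ^ ex a ν i * (a + 4) ^ 3 :=
        Nat.mul_le_mul_left _ h1
    _ = _ := by ring

lemma sum_Bf {a ν B : ℕ} (h : ν + 1 ≤ a) (hB : 6 ≤ B) :
    ∑ i ∈ range (num ν), Bf B (ex a ν i) + 6 * num ν = B * 2 ^ (a + ν + 6) := by
  rw [← sum_ex h, mul_sum]
  have h1 : 6 * num ν = ∑ i ∈ range (num ν), 6 := by simp [mul_comm]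
  rw [h1, ← sum_add_distrib]
  apply sum_congr rfl
  intro i _
  unfold Bf
  have : 6 * 1 ≤ B * 2 ^ ex a ν i := Nat.mul_le_mul hB Nat.one_le_two_pow
  omega

lemma SB_le {a ν B l : ℕ} (h : ν + 1 ≤ a) (hB : 6 ≤ B) (hl : l ≤ num ν) :
    SB (fun i => Bf B (ex a ν i)) l ≤ B * 2 ^ (a + ν + 6) := by
  change ∑ i ∈ range l, Bf B (ex a ν i) ≤ _
  have h1 := sum_Bf (B := B) h hB
  have h2 : ∑ i ∈ range l, Bf B (ex a ν i) ≤ ∑ i ∈ range (num ν), Bf B (ex a ν i) :=
    sum_le_sum_of_subset (range_mono hl)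
  omega

lemma Bf_le {a ν B i : ℕ} : Bf B (ex a ν i) ≤ B * 2 ^ (a + ν + 6) := by
  unfold Bf
  have h1 : B * 2 ^ ex a ν i ≤ B * 2 ^ (a + ν + 6) := by
    apply Nat.mul_le_mul_left
    exact Nat.pow_le_pow_right (by norm_num) (by have := ex_le a ν i; omega)
  omega

/-- the resolution of the later blocks covers the precision needed for the present one -/
lemma tail {A a ν L l : ℕ} (hν : L < 2 ^ (ν + 1)) (hL : L = a + ν + 10) (ha : ν + 1 ≤ a)
    (hl : l < num ν) :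
    ∑ i ∈ range l, Rf A (ex a ν i) + (Tf A (ex a ν l) + 3 * Rf A (ex a ν l)) ≤
      ∑ i ∈ range (num ν), Rf A (ex a ν i) + A * 2 ^ (a - (ν + 1)) * L ^ 3 := by
  set N := 2 ^ (ν + 5) with hN
  have hN0 : 0 < N := by positivity
  have hN16 : N = 16 * 2 ^ (ν + 1) := by rw [hN, show ν + 5 = (ν + 1) + 4 by ring, pow_add]; ring
  obtain ⟨q, hq⟩ : ∃ q, q = l / N := ⟨_, rfl⟩
  by_cases hqν : q < ν + 1
  · have h1 : l < N * (q + 1) := by rw [hq]; exact Nat.lt_mul_div_succ l hN0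
    have h2 : ∑ i ∈ range l, Rf A (ex a ν i) ≤ ∑ i ∈ range (N * (q + 1)), Rf A (ex a ν i) :=
      sum_le_sum_of_subset (range_mono h1.le)
    have h3 : ∑ i ∈ range (N * (q + 1) + N), Rf A (ex a ν i) =
        ∑ i ∈ range (N * (q + 1)), Rf A (ex a ν i) + N * Rf A (a - (q + 1)) := by
      rw [sum_range_add]
      congr 1
      have : ∀ j ∈ range N, Rf A (ex a ν (N * (q + 1) + j)) = Rf A (a - (q + 1)) := by
        intro j hj
        rw [mem_range] at hj
        congr 1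
        unfold ex
        rw [← hN, Nat.mul_add_div hN0, Nat.div_eq_of_lt hj, add_zero, min_eq_left (by omega)]
      rw [sum_congr rfl this]
      simp
    have h4 : ∑ i ∈ range (N * (q + 1) + N), Rf A (ex a ν i) ≤
        ∑ i ∈ range (num ν), Rf A (ex a ν i) := by
      apply sum_le_sum_of_subset
      apply range_mono
      unfold num
      rw [← hN]
      calc N * (q + 1) + N = N * (q + 2) := by ring
        _ ≤ N * (ν + 3) := Nat.mul_le_mul_left _ (by omega)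
    have h5 : ex a ν l = a - q := by
      unfold ex
      rw [← hN, ← hq, min_eq_left (by omega)]
    obtain ⟨x, hx⟩ : ∃ x, x = a - (q + 1) := ⟨_, rfl⟩
    have hx1 : a - q = x + 1 := by omega
    have h6 : Tf A (ex a ν l) + 3 * Rf A (ex a ν l) ≤ N * Rf A (a - (q + 1)) := by
      rw [h5, ← hx, hx1]
      unfold Tf Rf
      have h7 : 16 * (x + 12) ≤ N := by omega
      calc A * 2 ^ (x + 1) * (x + 1 + 4) ^ 3 + 3 * (A * 2 ^ (x + 1) * (x + 1 + 4) ^ 2)
          = A * 2 ^ x * (2 * (x ^ 3 + 18 * x ^ 2 + 105 * x + 200)) := by ring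
        _ ≤ A * 2 ^ x * (16 * (x + 12) * (x + 4) ^ 2) := by
            apply Nat.mul_le_mul_left
            have : 16 * (x + 12) * (x + 4) ^ 2 =
              2 * (x ^ 3 + 18 * x ^ 2 + 105 * x + 200) +
                (14 * x ^ 3 + 284 * x ^ 2 + 1582 * x + 2672) := by ring
            omega
        _ ≤ A * 2 ^ x * (N * (x + 4) ^ 2) := by
            apply Nat.mul_le_mul_left
            exact Nat.mul_le_mul_right _ h7
        _ = N * (A * 2 ^ x * (x + 4) ^ 2) := by ring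
    omega
  · have h1 : ex a ν l = a - (ν + 1) := by
      unfold ex
      rw [← hN, ← hq, min_eq_right (by omega)]
    have h2 : ∑ i ∈ range l, Rf A (ex a ν i) ≤ ∑ i ∈ range (num ν), Rf A (ex a ν i) :=
      sum_le_sum_of_subset (range_mono hl.le)
    obtain ⟨y, hy⟩ : ∃ y, y = a - (ν + 1) := ⟨_, rfl⟩
    have h3 : Tf A (ex a ν l) + 3 * Rf A (ex a ν l) ≤ A * 2 ^ (a - (ν + 1)) * L ^ 3 := by
      rw [h1, ← hy]
      unfold Tf Rf
      calc A * 2 ^ y * (y + 4) ^ 3 + 3 * (A * 2 ^ y * (y + 4) ^ 2)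
          = A * 2 ^ y * ((y + 4) ^ 2 * (y + 7)) := by ring
        _ ≤ A * 2 ^ y * (L ^ 2 * L) := by
            apply Nat.mul_le_mul_left
            exact Nat.mul_le_mul (Nat.pow_le_pow_left (by omega) 2) (by omega)
        _ = _ := by ring
    omega

end Pool.Agent.Helper15.KL
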