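import Mathlib

/-!
# Exponents of a sequence of compositions
-/

namespace Pool.Agent.Helper15.KL

open Finset

/-- slots after `l` compositions -/
def SB (b : ℕ → ℕ) (l : ℕ) : ℕ := ∑ i ∈ range l, b i

/-- lines after `l` compositions -/
def SN (t r b : ℕ → ℕ) (l : ℕ) : ℕ := ∑ i ∈ range l, (18 + t i + r i + 2 * SB b i)

/-- slope scale after `l` compositions -/
def ST (r b : ℕ → ℕ) (l : ℕ) : ℕ := ∑ i ∈ range l, (33 + r i + 2 * SB b i)

/-- the previous term -/
def pr (r : ℕ → ℕ) : ℕ → ℕ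
  | 0 => 0
  | i + 1 => r i

/-- margin after `l` compositions -/
def SQ (r w b : ℕ → ℕ) (l : ℕ) : ℕ :=
  ∑ i ∈ range l, (99 + 2 * pr r i + 3 * r i + w i + 5 * SB b i + b i)


/-- resolution of a block of size `2 ^ a` -/
def Rf (A a : ℕ) : ℕ := A * 2 ^ a * (a + 4) ^ 2

/-- number of lines, and margin, of a block of size `2 ^ a` -/
def Tf (A a : ℕ) : ℕ := A * 2 ^ a * (a + 4) ^ 3

/-- number of slots of a block of size `2 ^ a` -/
def Bf (B a : ℕ) : ℕ := B * 2 ^ a - 6

/-- sizes of the blocks of the sequence: groups of `2 ^ (ν + 5)` equal blocks, the sizes of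
consecutive groups decrease by the factor two, the last group is repeated -/
def ex (a ν i : ℕ) : ℕ := a - min (i / 2 ^ (ν + 5)) (ν + 1)

/-- number of blocks of the sequence -/
def num (ν : ℕ) : ℕ := 2 ^ (ν + 5) * (ν + 3)

end Pool.Agent.Helper15.KL
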