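import Pool.Agent.Helper15.KL.Has
import Pool.Agent.Helper15.KL.Sums

/-!
# Compositions with a sequence of inner blocks of different sizes
-/

set_option linter.unusedSectionVars false
set_option linter.unusedVariables false
set_option maxHeartbeats 1000000

namespace Pool.Agent.Helper15.KL

open Finset Pool.Agent.N35.HL

lemma mul_le_pow {x y a b : ℕ} (h1 : x ≤ 2 ^ a) (h2 : y ≤ 2 ^ b) : x * y ≤ 2 ^ (a + b) := by
  rw [pow_add]; exact Nat.mul_le_mul h1 h2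

lemma pow_le_pow' {x a k : ℕ} (h1 : x ≤ 2 ^ a) : x ^ k ≤ 2 ^ (k * a) := by
  calc x ^ k ≤ (2 ^ a) ^ k := Nat.pow_le_pow_left h1 k
    _ = 2 ^ (k * a) := by rw [← pow_mul, mul_comm]

theorem seqR {t r w b : ℕ → ℕ} {β : ℕ → ℝ} {n ρ : ℕ}
    (h : ∀ l < n, Lv (t l) (r l) (w l) (b l) (β l)) (hβ : ∀ l < n, 0 ≤ β l)
    (hρ : ∀ l < n, 1 + ST r b l + (74 + w l + 3 * r l + 4 * SB b l + b l) ≤ ρ) (hρ1 : 1 ≤ ρ) :
    ∀ l ≤ n, ∃ Δ N E P Q T, HasR Δ N E P Q T (3 ^ l) (2 ^ ρ) ∧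
      2500 / 10506 * (∏ i ∈ range l, β i) * N * 5253 ≤ 2500 * E ∧
      N ≤ 2 ^ (1 + SN t r b l) ∧ P ≤ 2 ^ SB b l ∧ Q ≤ 2 ^ (2 + SQ r w b l) ∧
      T ≤ 2 ^ (1 + ST r b l) ∧ Δ ≤ 2 ^ pr r l := by
  intro l
  induction l with
  | zero =>
    intro _
    obtain ⟨m, rfl⟩ : ∃ m, ρ = m + 1 := ⟨ρ - 1, by omega⟩
    refine ⟨1, 2, 1, 1, 4, 2, ?_, ?_, ?_, ?_, ?_, ?_, ?_⟩
    · have h1 := HasR.start (m := 2 ^ m) Nat.one_le_two_pow
      rw [pow_succ, mul_comm (2 ^ m) 2, pow_zero]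
      exact h1
    · simp only [range_zero, prod_empty]; norm_num
    · simp [SN]
    · simp [SB]
    · simp [SQ]
    · simp [ST]
    · simp [pr]
  | succ l ih =>
    intro hl
    have hl' : l < n := by omega
    obtain ⟨Δ₀, N, E, P, Q, T, h1, h2, h3, h4, h5, h6, h7⟩ := ih (by omega)
    obtain ⟨g, E₂, P₂, Rz, Δ, U, M, hI, hg, hR, hUM, hP, hr⟩ := h l hl'
    have hP2 : P₂ ≤ 2 ^ b l := by omega
    have hΔR : Δ ≤ 2 ^ r l := hI.Δ_le.trans hR
    have hΔ1 := hI.Δ_pos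
    have hRz1 := hI.Rz_pos
    have key : T * (2 ^ 74 * (M * U * Rz ^ 3 * (P ^ 4 * P₂))) ≤ 2 ^ ρ := by
      have a1 : M * U ≤ 2 ^ w l := by rw [mul_comm]; exact hUM
      have a2 := mul_le_pow (mul_le_pow a1 (pow_le_pow' (k := 3) hR))
        (mul_le_pow (pow_le_pow' (k := 4) h4) hP2)
      have a3 := mul_le_pow h6 (mul_le_pow (le_refl (2 ^ 74)) a2)
      refine a3.trans (Nat.pow_le_pow_right (by norm_num) ?_)
      have := hρ l hl'
      omega
    have hc := h1.comp hI key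
    rw [← pow_succ' 3 l] at hc
    refine ⟨_, _, _, _, _, _, hc, ?_, ?_, ?_, ?_, ?_, ?_⟩
    · -- density
      have hN0 : (0:ℝ) ≤ 2500 * E := by positivity
      have hb0 : (0:ℝ) ≤ β l * g * 5253 := by
        have := hβ l hl'
        positivity
      have a1 : (2500 / 10506 * (∏ i ∈ range l, β i) * N * 5253) * (β l * g * 5253) ≤
          (2500 * E) * (2500 * E₂) := mul_le_mul h2 hr hb0 hN0
      have a2 : (0:ℝ) ≤ Rz * (P:ℝ) ^ 2 * 50 := by positivity
      have a3 := mul_le_mul_of_nonneg_right a1 a2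
      rw [prod_range_succ]
      push_cast
      have hpr : 0 ≤ ∏ i ∈ range l, β i :=
        prod_nonneg (fun i hi => hβ i (by rw [mem_range] at hi; omega))
      have a4 : 0 ≤ (∏ i ∈ range l, β i) * N * (β l * g) * (Rz * (P:ℝ) ^ 2) := by
        have := hβ l hl'
        positivity
      have e5 : 2500 / 10506 * ((∏ i ∈ range l, β i) * β l) *
          (N * (g * Rz * 260100) * (P:ℝ) ^ 2) * 5253 =
        (2500 / 10506 * 260100 * 5253) *
          ((∏ i ∈ range l, β i) * N * (β l * g) * (Rz * (P:ℝ) ^ 2)) := by ring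
      have e6 : (2500 / 10506 * (∏ i ∈ range l, β i) * N * 5253) * (β l * g * 5253) *
          (Rz * (P:ℝ) ^ 2 * 50) =
        (2500 / 10506 * 5253 * 5253 * 50) *
          ((∏ i ∈ range l, β i) * N * (β l * g) * (Rz * (P:ℝ) ^ 2)) := by ring
      have e7 : (2500 * (E:ℝ)) * (2500 * E₂) * (Rz * (P:ℝ) ^ 2 * 50) =
        2500 * (E * (125000 * E₂ * Rz * (P:ℝ) ^ 2)) := by ring
      rw [e6, e7] at a3
      rw [e5]
      refine le_trans ?_ a3
      apply mul_le_mul_of_nonneg_right _ a4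
      norm_num
    · -- lines
      have e1 : SN t r b (l + 1) = SN t r b l + (18 + t l + r l + 2 * SB b l) := by
        unfold SN; rw [sum_range_succ]
      have a1 : (260100 : ℕ) ≤ 2 ^ 18 := by norm_num
      have a2 := mul_le_pow (mul_le_pow h3 (mul_le_pow (mul_le_pow hg hR) a1))
        (pow_le_pow' (k := 2) h4)
      refine a2.trans (Nat.pow_le_pow_right (by norm_num) ?_)
      omega
    · have e1 : SB b (l + 1) = SB b l + b l := by unfold SB; rw [sum_range_succ]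
      have a1 : 50 * P * P₂ = P * (50 * P₂) := by ring
      rw [a1, e1]
      exact mul_le_pow h4 hP
    · have e1 : SQ r w b (l + 1) = SQ r w b l +
          (99 + 2 * pr r l + 3 * r l + w l + 5 * SB b l + b l) := by
        unfold SQ; rw [sum_range_succ]
      have e2 : Q * ((51200 * Δ₀ * P) * (2 ^ 13 * (50 * P)) * (2 ^ 18 * U * Rz *
          (50 * (50 * P * P₂))) * (16 * M * Rz) * (2 * (51200 * Δ₀ * P) *
          (500 * Rz * (50 * P)))) =
          Q * ((51200 * (2 ^ 13 * 50) * (2 ^ 18 * (50 * 50)) * 16 * (2 * 51200 * (500 * 50))) *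
            (Δ₀ ^ 2 * Rz ^ 3 * (U * M) * (P ^ 5 * P₂))) := by ring
      rw [e2]
      have a1 : 51200 * (2 ^ 13 * 50) * (2 ^ 18 * (50 * 50)) * 16 * (2 * 51200 * (500 * 50)) ≤
        2 ^ 99 := by norm_num
      have a2 := mul_le_pow h5 (mul_le_pow a1 (mul_le_pow (mul_le_pow (mul_le_pow
        (pow_le_pow' (k := 2) h7) (pow_le_pow' (k := 3) hR)) hUM)
        (mul_le_pow (pow_le_pow' (k := 5) h4) hP2)))
      refine a2.trans (Nat.pow_le_pow_right (by norm_num) ?_)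
      omega
    · have e1 : ST r b (l + 1) = ST r b l + (33 + r l + 2 * SB b l) := by
        unfold ST; rw [sum_range_succ]
      have a1 : (5120000000 : ℕ) ≤ 2 ^ 33 := by norm_num
      have a2 := mul_le_pow h6 (mul_le_pow (mul_le_pow a1 hR) (pow_le_pow' (k := 2) h4))
      refine a2.trans (Nat.pow_le_pow_right (by norm_num) ?_)
      omega
    · exact hΔR

/-- `n` compositions, rescaling and choice of a class of events -/
theorem stepR {t r w b : ℕ → ℕ} {β : ℕ → ℝ} {n ρ : ℕ}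
    (h : ∀ l < n, Lv (t l) (r l) (w l) (b l) (β l)) (hβ : ∀ l < n, 0 ≤ β l)
    (hρ : ∀ l < n, 1 + ST r b l + (74 + w l + 3 * r l + 4 * SB b l + b l) ≤ ρ) (hρ1 : 1 ≤ ρ) :
    Lv (1 + SN t r b n) (1 + 2 * n + ρ) (8 + ρ + 4 * n + SQ r w b n) (6 + SB b n)
      (2500 / 10506 * (∏ i ∈ range n, β i) / (ρ + 4)) := by
  obtain ⟨Δ, N, E, P, Q, T, h1, h2, h3, h4, h5, h6, h7⟩ := seqR h hβ hρ hρ1 n le_rfl
  obtain ⟨Δ', E', h8, h9⟩ := h1.up (Nat.one_le_pow _ _ (by norm_num))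
  have h3n : 3 ^ n ≤ 2 ^ (2 * n) := by
    rw [pow_mul]; exact Nat.pow_le_pow_left (by norm_num) n
  refine ⟨N, E', P, _, Δ', _, _, h8, h3, ?_, ?_, ?_, ?_⟩
  · have a1 := mul_le_pow (mul_le_pow (le_refl (2 ^ 1)) h3n) (le_refl (2 ^ ρ))
    refine le_trans (le_of_eq (by ring)) a1
  · have a1 := mul_le_pow (mul_le_pow (mul_le_pow (le_refl (2 ^ 2)) (le_refl (2 ^ ρ)))
      (pow_le_pow' (k := 2) h3n)) (mul_le_pow (show 12 ≤ 2 ^ 4 by norm_num) h5)
    refine a1.trans (Nat.pow_le_pow_right (by norm_num) (by omega))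
  · exact mul_le_pow (show 50 ≤ 2 ^ 6 by norm_num) h4
  · have h10' : Nat.log 2 (12 * 2 ^ ρ) + 1 ≤ ρ + 4 := by
      have h13 := Nat.two_pow_pos ρ
      have h11 : 12 * 2 ^ ρ < 2 ^ (ρ + 4) := by
        rw [pow_add]
        omega
      have h12 := Nat.log_lt_of_lt_pow (b := 2) (x := ρ + 4) (by omega) h11
      omega
    have h11 : E ≤ E' * (ρ + 4) := h9.trans (Nat.mul_le_mul_left _ h10')
    have h12 : (E:ℝ) ≤ E' * (ρ + 4) := by exact_mod_cast h11
    have hpos : (0:ℝ) < (ρ:ℝ) + 4 := by positivity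
    rw [div_mul_eq_mul_div, div_mul_eq_mul_div, div_le_iff₀ hpos]
    linarith

end Pool.Agent.Helper15.KL
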